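import Mathlib

namespace Pool.Agent.Results.MP_429122_al.CoreLocal

universe u v

/-- `J` is a reduction of the ideal `I`: `J ≤ I` and `J * I ^ n = I ^ (n + 1)` for some `n ≥ 0`. -/
def IsReduction {S : Type v} [CommRing S] (J I : Ideal S) : Prop :=
  J ≤ I ∧ ∃ n : ℕ, J * I ^ n = I ^ (n + 1)

/-- The core of `I`: the intersection of all reductions of `I` in `S`. -/
def core {S : Type v} [CommRing S] (I : Ideal S) : Ideal S :=
  sInf {J : Ideal S | IsReduction J I}

/-- `A = ⨁ 𝒜 i` is a standard graded `k`-algebra: `𝒜 0 = k` and `A` is generated as a `k`-algebra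
by finitely many elements of degree one. -/
structure IsStandardGraded {k : Type u} {A : Type v} [Field k] [CommRing A] [Algebra k A]
    (𝒜 : ℕ → Submodule k A) [GradedAlgebra 𝒜] : Prop where
  injective : Function.Injective (algebraMap k A)
  zero_eq : 𝒜 0 = LinearMap.range (Algebra.linearMap k A)
  gen : ∃ s : Finset A, (∀ a ∈ s, a ∈ 𝒜 1) ∧ Algebra.adjoin k (s : Set A) = ⊤

section General

variable {A : Type v} [CommRing A]

/-- If `P` is maximal and `P ^ N ≤ I`, then `I` is contracted from the localization at `P`. -/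
theorem mem_of_map_mem (P : Ideal A) [hP : P.IsMaximal] {I : Ideal A} {N : ℕ} (h : P ^ N ≤ I)
    {x : A} (hx : algebraMap A (Localization.AtPrime P) x ∈
      I.map (algebraMap A (Localization.AtPrime P))) : x ∈ I := by
  rw [IsLocalization.algebraMap_mem_map_algebraMap_iff P.primeCompl] at hx
  obtain ⟨s, hs, hsx⟩ := hx
  have hsP : s ∉ P := hs
  -- `s` is invertible modulo `P ^ N`
  have hcop : IsCoprime (Ideal.span {s}) (P ^ N) := by
    apply IsCoprime.pow_right
    rw [Ideal.isCoprime_iff_sup_eq]
    apply hP.1.2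
    refine lt_of_le_of_ne le_sup_right ?_
    intro he
    apply hsP
    rw [he]
    exact Ideal.mem_sup_left (Ideal.mem_span_singleton_self s)
  rw [Ideal.isCoprime_iff_exists] at hcop
  obtain ⟨i, hi, j, hj, hij⟩ := hcop
  obtain ⟨t, rfl⟩ := Ideal.mem_span_singleton'.mp hi
  have : x = t * (s * x) + j * x := by
    calc x = (t * s + j) * x := by rw [hij, one_mul]
      _ = t * (s * x) + j * x := by ring
  rw [this]
  exact I.add_mem (I.mul_mem_left _ hsx) (I.mul_mem_right _ (h hj))

theorem pow_le_of_isReduction {J I : Ideal A} (h : IsReduction J I) : ∃ N, I ^ N ≤ J := by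
  obtain ⟨-, n, hn⟩ := h
  refine ⟨n + 1, ?_⟩
  rw [← hn]
  exact Ideal.mul_le_left

theorem map_isReduction (P : Ideal A) [hP : P.IsMaximal] {J : Ideal A} (h : IsReduction J P) :
    IsReduction (J.map (algebraMap A (Localization.AtPrime P)))
      (IsLocalRing.maximalIdeal (Localization.AtPrime P)) := by
  rw [← Localization.AtPrime.map_eq_maximalIdeal]
  obtain ⟨h1, n, hn⟩ := h
  refine ⟨Ideal.map_mono h1, n, ?_⟩
  rw [← Ideal.map_pow, ← Ideal.map_mul, hn, Ideal.map_pow]

theorem comap_isReduction (P : Ideal A) [hP : P.IsMaximal]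
    {J : Ideal (Localization.AtPrime P)}
    (h : IsReduction J (IsLocalRing.maximalIdeal (Localization.AtPrime P))) :
    IsReduction (J.comap (algebraMap A (Localization.AtPrime P))) P := by
  rw [← Localization.AtPrime.map_eq_maximalIdeal] at h
  obtain ⟨h1, n, hn⟩ := h
  have hle : P ^ (n + 1) ≤ J.comap (algebraMap A (Localization.AtPrime P)) := by
    rw [← Ideal.map_le_iff_le_comap, Ideal.map_pow, ← hn]
    exact Ideal.mul_le_left
  have hJP : J.comap (algebraMap A (Localization.AtPrime P)) ≤ P := by
    intro x hx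
    exact mem_of_map_mem P (N := 1) (by rw [pow_one]) (h1 hx)
  refine ⟨hJP, n, ?_⟩
  have hmap : (J.comap (algebraMap A (Localization.AtPrime P))).map
      (algebraMap A (Localization.AtPrime P)) = J :=
    IsLocalization.map_under P.primeCompl _ J
  apply le_antisymm
  · calc J.comap (algebraMap A (Localization.AtPrime P)) * P ^ n ≤ P * P ^ n :=
        Ideal.mul_mono_left hJP
      _ = P ^ (n + 1) := by rw [pow_succ']
  · intro x hx
    apply mem_of_map_mem P (N := (n + 1) + n)
    · rw [pow_add]
      exact Ideal.mul_mono_left hle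
    · rw [Ideal.map_mul, hmap, Ideal.map_pow, hn, ← Ideal.map_pow]
      exact Ideal.mem_map_of_mem _ hx

/-- The core commutes with localization at a maximal ideal. -/
theorem core_localization (P : Ideal A) [hP : P.IsMaximal] :
    core (IsLocalRing.maximalIdeal (Localization.AtPrime P)) =
      (core P).map (algebraMap A (Localization.AtPrime P)) := by
  apply le_antisymm
  · rw [← IsLocalization.map_under P.primeCompl (Localization.AtPrime P)
      (core (IsLocalRing.maximalIdeal (Localization.AtPrime P)))]
    apply Ideal.map_mono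
    rw [core, core]
    apply le_sInf
    intro J hJ x hx
    obtain ⟨N, hN⟩ := pow_le_of_isReduction hJ
    apply mem_of_map_mem P hN
    have h1 : sInf {J | IsReduction J (IsLocalRing.maximalIdeal (Localization.AtPrime P))} ≤
        J.map (algebraMap A (Localization.AtPrime P)) := sInf_le (map_isReduction P hJ)
    exact h1 hx
  · rw [core, core]
    apply le_sInf
    intro J hJ
    rw [← IsLocalization.map_under P.primeCompl (Localization.AtPrime P) J]
    exact Ideal.map_mono (sInf_le (comap_isReduction P hJ))

end General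

/-- In a standard graded algebra the ideal `A_+` is maximal. -/
theorem irrelevant_isMaximal {k : Type u} {A : Type v} [Field k] [CommRing A] [Algebra k A]
    (𝒜 : ℕ → Submodule k A) [GradedAlgebra 𝒜] (h : IsStandardGraded 𝒜) :
    (HomogeneousIdeal.irrelevant 𝒜).toIdeal.IsMaximal := by
  have hmem : ∀ a : A, a ∈ (HomogeneousIdeal.irrelevant 𝒜).toIdeal ↔
      GradedRing.proj 𝒜 0 a = 0 := fun a => HomogeneousIdeal.mem_irrelevant_iff 𝒜 a
  rw [Ideal.isMaximal_iff]
  constructor
  · rw [hmem]
    intro h1
    have h2 : GradedRing.proj 𝒜 0 (1 : A) = 1 := by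
      rw [GradedRing.proj_apply]
      exact DirectSum.decompose_of_mem_same 𝒜 SetLike.GradedOne.one_mem
    rw [h2] at h1
    have h3 : algebraMap k A 1 = algebraMap k A 0 := by rw [map_one, map_zero, h1]
    exact one_ne_zero (h.injective h3)
  · intro J x hJ hx hxJ
    have h0 : GradedRing.proj 𝒜 0 x ∈ 𝒜 0 := by
      rw [GradedRing.proj_apply]
      exact (DirectSum.decompose 𝒜 x 0).2
    rw [h.zero_eq] at h0
    obtain ⟨c, hc⟩ := h0
    have hc' : algebraMap k A c = GradedRing.proj 𝒜 0 x := hc
    have hc0 : c ≠ 0 := by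
      rintro rfl
      rw [map_zero] at hc'
      exact hx ((hmem x).mpr hc'.symm)
    have hmem2 : x - algebraMap k A c ∈ (HomogeneousIdeal.irrelevant 𝒜).toIdeal := by
      rw [hmem, map_sub, hc', sub_eq_zero]
      rw [GradedRing.proj_apply, GradedRing.proj_apply]
      exact (DirectSum.decompose_of_mem_same 𝒜 (DirectSum.decompose 𝒜 x 0).2).symm
    have h4 : algebraMap k A c ∈ J := by
      have := J.sub_mem hxJ (hJ hmem2)
      rwa [sub_sub_cancel] at this
    have h5 := J.mul_mem_left (algebraMap k A c⁻¹) h4
    rwa [← map_mul, inv_mul_cancel₀ hc0, map_one] at h5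

/-- **Positive answer to Q1.** For every infinite field `k` and every standard graded `k`-algebra
`A`, the ideal `A_+` is maximal and, for the localization `R` of `A` at `A_+` with maximal ideal
`m`, one has `core m = (core A_+) R`. -/
theorem result {k : Type u} {A : Type v} [Field k] [Infinite k] [CommRing A] [Algebra k A]
    (𝒜 : ℕ → Submodule k A) [GradedAlgebra 𝒜] (h : IsStandardGraded 𝒜) :
    ∃ _ : (HomogeneousIdeal.irrelevant 𝒜).toIdeal.IsPrime,
      core (IsLocalRing.maximalIdeal
        (Localization.AtPrime (HomogeneousIdeal.irrelevant 𝒜).toIdeal)) =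
      (core (HomogeneousIdeal.irrelevant 𝒜).toIdeal).map
        (algebraMap A (Localization.AtPrime (HomogeneousIdeal.irrelevant 𝒜).toIdeal)) := by
  have := irrelevant_isMaximal 𝒜 h
  exact ⟨inferInstance, core_localization _⟩

end Pool.Agent.Results.MP_429122_al.CoreLocal
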