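import Mathlib

namespace Pool.Agent.Results.MP_429122_al.GradedCore

open DirectSum

universe u v

/-- `J` is a reduction of the ideal `I`: `J ≤ I` and `J * I ^ n = I ^ (n + 1)` for some `n ≥ 0`. -/
def IsReduction {S : Type v} [CommRing S] (J I : Ideal S) : Prop :=
  J ≤ I ∧ ∃ n : ℕ, J * I ^ n = I ^ (n + 1)

/-- The core of `I`: the intersection of all reductions of `I` in `S`. -/
def core {S : Type v} [CommRing S] (I : Ideal S) : Ideal S :=
  sInf {J : Ideal S | IsReduction J I}

/-- The homogeneous core of `I`: the intersection of all homogeneous reductions of `I`. -/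
def gradedCore {k : Type u} {A : Type v} [Field k] [CommRing A] [Algebra k A]
    (𝒜 : ℕ → Submodule k A) [GradedAlgebra 𝒜] (I : Ideal A) : Ideal A :=
  sInf {J : Ideal A | J.IsHomogeneous 𝒜 ∧ IsReduction J I}

/-- `A = ⨁ 𝒜 i` is a standard graded `k`-algebra: `𝒜 0 = k` and `A` is generated as a `k`-algebra
by finitely many elements of degree one. -/
structure IsStandardGraded {k : Type u} {A : Type v} [Field k] [CommRing A] [Algebra k A]
    (𝒜 : ℕ → Submodule k A) [GradedAlgebra 𝒜] : Prop where
  injective : Function.Injective (algebraMap k A)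
  zero_eq : 𝒜 0 = LinearMap.range (Algebra.linearMap k A)
  gen : ∃ s : Finset A, (∀ a ∈ s, a ∈ 𝒜 1) ∧ Algebra.adjoin k (s : Set A) = ⊤

/-- The equality `core m = (gradedCore A_+) R`, where `R` is the localization of `A` at `A_+` and
`m` is its maximal ideal. -/
def CoreFormula {k : Type u} {A : Type v} [Field k] [CommRing A] [Algebra k A]
    (𝒜 : ℕ → Submodule k A) [GradedAlgebra 𝒜]
    [(HomogeneousIdeal.irrelevant 𝒜).toIdeal.IsPrime] : Prop :=
  core (IsLocalRing.maximalIdeal
    (Localization.AtPrime (HomogeneousIdeal.irrelevant 𝒜).toIdeal)) =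
  (gradedCore 𝒜 (HomogeneousIdeal.irrelevant 𝒜).toIdeal).map
    (algebraMap A (Localization.AtPrime (HomogeneousIdeal.irrelevant 𝒜).toIdeal))

section QuotientGrading

variable {k : Type u} {S : Type v} [Field k] [CommRing S] [Algebra k S]
  (𝒮 : ℕ → Submodule k S) [GradedAlgebra 𝒮] (I : Ideal S)

/-- The image of a grading in a quotient ring. -/
def quotGrading : ℕ → Submodule k (S ⧸ I) :=
  fun i => (𝒮 i).map (Ideal.Quotient.mkₐ k I).toLinearMap

omit [GradedAlgebra 𝒮] in
theorem mk_mem {i : ℕ} {s : S} (hs : s ∈ 𝒮 i) : Ideal.Quotient.mk I s ∈ quotGrading 𝒮 I i :=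
  ⟨s, hs, rfl⟩

instance gradedMonoid : SetLike.GradedMonoid (quotGrading 𝒮 I) where
  one_mem := ⟨1, SetLike.GradedOne.one_mem, map_one (Ideal.Quotient.mk I)⟩
  mul_mem := by
    rintro i j _ _ ⟨a, ha, rfl⟩ ⟨b, hb, rfl⟩
    exact ⟨a * b, SetLike.GradedMul.mul_mem ha hb, map_mul (Ideal.Quotient.mk I) a b⟩

variable {I}

theorem isInternal (hI : I.IsHomogeneous 𝒮) : DirectSum.IsInternal (quotGrading 𝒮 I) := by
  classical
  constructor
  · -- injectivity
    rw [injective_iff_map_eq_zero]
    intro x hx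
    have hch : ∀ i : ℕ, ∃ s : S, s ∈ 𝒮 i ∧ Ideal.Quotient.mk I s = (x i : S ⧸ I) := by
      intro i
      obtain ⟨s, hs, h⟩ := (x i).2
      exact ⟨s, hs, h⟩
    choose s hs hsx using hch
    have h1 : DirectSum.coeAddMonoidHom (quotGrading 𝒮 I) x = ∑ i ∈ x.support, (x i : S ⧸ I) :=
      DirectSum.coeAddMonoidHom_eq_dfinsuppSum _ x
    rw [h1] at hx
    have h2 : Ideal.Quotient.mk I (∑ i ∈ x.support, s i) = 0 := by
      rw [map_sum, ← hx]
      exact Finset.sum_congr rfl fun i _ => hsx i
    rw [Ideal.Quotient.eq_zero_iff_mem] at h2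
    ext i
    by_cases hi : i ∈ x.support
    · have h3 := hI i h2
      have h4 : (DirectSum.decompose 𝒮 (∑ i ∈ x.support, s i) i : S) = s i := by
        rw [DirectSum.decompose_sum, DFinsupp.finsetSum_apply]
        rw [Submodule.coe_sum, Finset.sum_eq_single i]
        · exact DirectSum.decompose_of_mem_same 𝒮 (hs i)
        · intro j _ hj
          exact DirectSum.decompose_of_mem_ne 𝒮 (hs j) hj
        · intro h; exact absurd hi h
      rw [h4] at h3
      rw [← hsx i, Ideal.Quotient.eq_zero_iff_mem.mpr h3]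
      rfl
    · rw [DFinsupp.notMem_support_iff.mp hi]
      rfl
  · -- surjectivity
    intro y
    obtain ⟨s, rfl⟩ := Ideal.Quotient.mk_surjective y
    rw [← DirectSum.sum_support_decompose 𝒮 s, map_sum]
    refine ⟨∑ i ∈ (DirectSum.decompose 𝒮 s).support,
      DirectSum.of (fun i => quotGrading 𝒮 I i) i
        ⟨Ideal.Quotient.mk I (DirectSum.decompose 𝒮 s i), mk_mem 𝒮 I (DirectSum.decompose 𝒮 s i).2⟩, ?_⟩
    rw [map_sum]
    exact Finset.sum_congr rfl fun i _ => DirectSum.coeAddMonoidHom_of _ _ _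

/-- The quotient of a graded algebra by a homogeneous ideal is graded. -/
@[instance_reducible] noncomputable def gradedAlgebra (hI : I.IsHomogeneous 𝒮) : GradedAlgebra (quotGrading 𝒮 I) :=
  { gradedMonoid 𝒮 I, (isInternal 𝒮 hI).chooseDecomposition with }

theorem decompose_mk (hI : I.IsHomogeneous 𝒮) (s : S) (i : ℕ) :
    letI := gradedAlgebra 𝒮 hI
    (DirectSum.decompose (quotGrading 𝒮 I) (Ideal.Quotient.mk I s) i : S ⧸ I) =
      Ideal.Quotient.mk I (DirectSum.decompose 𝒮 s i) := by
  classical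
  let _ := gradedAlgebra 𝒮 hI
  have h := DirectSum.sum_support_decompose 𝒮 s
  conv_lhs => rw [← h]
  rw [map_sum, DirectSum.decompose_sum, DFinsupp.finsetSum_apply, Submodule.coe_sum]
  by_cases hi : i ∈ (DirectSum.decompose 𝒮 s).support
  · rw [Finset.sum_eq_single i]
    · exact DirectSum.decompose_of_mem_same _ (mk_mem 𝒮 I (DirectSum.decompose 𝒮 s i).2)
    · intro j _ hj
      exact DirectSum.decompose_of_mem_ne _ (mk_mem 𝒮 I (DirectSum.decompose 𝒮 s j).2) hj
    · intro h; exact absurd hi h
  · rw [DFinsupp.notMem_support_iff.mp hi, ZeroMemClass.coe_zero, map_zero]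
    apply Finset.sum_eq_zero
    intro j hj
    have hji : j ≠ i := fun h => hi (h ▸ hj)
    exact DirectSum.decompose_of_mem_ne _ (mk_mem 𝒮 I (DirectSum.decompose 𝒮 s j).2) hji

end QuotientGrading

section General

variable {A : Type v} [CommRing A]

/-- If `P` is maximal and `P ^ N ≤ I`, then `I` is contracted from the localization at `P`. -/
theorem mem_of_map_mem (P : Ideal A) [hP : P.IsMaximal] {I : Ideal A} {N : ℕ} (h : P ^ N ≤ I)
    {x : A} (hx : algebraMap A (Localization.AtPrime P) x ∈
      I.map (algebraMap A (Localization.AtPrime P))) : x ∈ I := by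
  rw [IsLocalization.algebraMap_mem_map_algebraMap_iff P.primeCompl] at hx
  obtain ⟨s, hs, hsx⟩ := hx
  have hsP : s ∉ P := hs
  -- `s` is invertible modulo `P ^ N`
  have hcop : IsCoprime (Ideal.span {s}) (P ^ N) := by
    apply IsCoprime.pow_right
    rw [Ideal.isCoprime_iff_sup_eq]
    apply hP.1.2
    refine lt_of_le_of_ne le_sup_right ?_
    intro he
    apply hsP
    rw [he]
    exact Ideal.mem_sup_left (Ideal.mem_span_singleton_self s)
  rw [Ideal.isCoprime_iff_exists] at hcop
  obtain ⟨i, hi, j, hj, hij⟩ := hcop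
  obtain ⟨t, rfl⟩ := Ideal.mem_span_singleton'.mp hi
  have : x = t * (s * x) + j * x := by
    calc x = (t * s + j) * x := by rw [hij, one_mul]
      _ = t * (s * x) + j * x := by ring
  rw [this]
  exact I.add_mem (I.mul_mem_left _ hsx) (I.mul_mem_right _ (h hj))

theorem pow_le_of_isReduction {J I : Ideal A} (h : IsReduction J I) : ∃ N, I ^ N ≤ J := by
  obtain ⟨-, n, hn⟩ := h
  refine ⟨n + 1, ?_⟩
  rw [← hn]
  exact Ideal.mul_le_left

theorem map_isReduction (P : Ideal A) [hP : P.IsMaximal] {J : Ideal A} (h : IsReduction J P) :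
    IsReduction (J.map (algebraMap A (Localization.AtPrime P)))
      (IsLocalRing.maximalIdeal (Localization.AtPrime P)) := by
  rw [← Localization.AtPrime.map_eq_maximalIdeal]
  obtain ⟨h1, n, hn⟩ := h
  refine ⟨Ideal.map_mono h1, n, ?_⟩
  rw [← Ideal.map_pow, ← Ideal.map_mul, hn, Ideal.map_pow]

theorem comap_isReduction (P : Ideal A) [hP : P.IsMaximal]
    {J : Ideal (Localization.AtPrime P)}
    (h : IsReduction J (IsLocalRing.maximalIdeal (Localization.AtPrime P))) :
    IsReduction (J.comap (algebraMap A (Localization.AtPrime P))) P := by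
  rw [← Localization.AtPrime.map_eq_maximalIdeal] at h
  obtain ⟨h1, n, hn⟩ := h
  have hle : P ^ (n + 1) ≤ J.comap (algebraMap A (Localization.AtPrime P)) := by
    rw [← Ideal.map_le_iff_le_comap, Ideal.map_pow, ← hn]
    exact Ideal.mul_le_left
  have hJP : J.comap (algebraMap A (Localization.AtPrime P)) ≤ P := by
    intro x hx
    exact mem_of_map_mem P (N := 1) (by rw [pow_one]) (h1 hx)
  refine ⟨hJP, n, ?_⟩
  have hmap : (J.comap (algebraMap A (Localization.AtPrime P))).map
      (algebraMap A (Localization.AtPrime P)) = J :=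
    IsLocalization.map_under P.primeCompl _ J
  apply le_antisymm
  · calc J.comap (algebraMap A (Localization.AtPrime P)) * P ^ n ≤ P * P ^ n :=
        Ideal.mul_mono_left hJP
      _ = P ^ (n + 1) := by rw [pow_succ']
  · intro x hx
    apply mem_of_map_mem P (N := (n + 1) + n)
    · rw [pow_add]
      exact Ideal.mul_mono_left hle
    · rw [Ideal.map_mul, hmap, Ideal.map_pow, hn, ← Ideal.map_pow]
      exact Ideal.mem_map_of_mem _ hx

end General

theorem core_le {S : Type v} [CommRing S] {J I : Ideal S} (h : IsReduction J I) : core I ≤ J :=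
  sInf_le h

/-- In a standard graded algebra the ideal `A_+` is maximal. -/
theorem irrelevant_isMaximal {k : Type u} {A : Type v} [Field k] [CommRing A] [Algebra k A]
    (𝒜 : ℕ → Submodule k A) [GradedAlgebra 𝒜] (h : IsStandardGraded 𝒜) :
    (HomogeneousIdeal.irrelevant 𝒜).toIdeal.IsMaximal := by
  have hmem : ∀ a : A, a ∈ (HomogeneousIdeal.irrelevant 𝒜).toIdeal ↔
      GradedRing.proj 𝒜 0 a = 0 := fun a => HomogeneousIdeal.mem_irrelevant_iff 𝒜 a
  rw [Ideal.isMaximal_iff]
  constructor
  · rw [hmem]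
    intro h1
    have h2 : GradedRing.proj 𝒜 0 (1 : A) = 1 := by
      rw [GradedRing.proj_apply]
      exact DirectSum.decompose_of_mem_same 𝒜 SetLike.GradedOne.one_mem
    rw [h2] at h1
    have h3 : algebraMap k A 1 = algebraMap k A 0 := by rw [map_one, map_zero, h1]
    exact one_ne_zero (h.injective h3)
  · intro J x hJ hx hxJ
    have h0 : GradedRing.proj 𝒜 0 x ∈ 𝒜 0 := by
      rw [GradedRing.proj_apply]
      exact (DirectSum.decompose 𝒜 x 0).2
    rw [h.zero_eq] at h0
    obtain ⟨c, hc⟩ := h0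
    have hc' : algebraMap k A c = GradedRing.proj 𝒜 0 x := hc
    have hc0 : c ≠ 0 := by
      rintro rfl
      rw [map_zero] at hc'
      exact hx ((hmem x).mpr hc'.symm)
    have hmem2 : x - algebraMap k A c ∈ (HomogeneousIdeal.irrelevant 𝒜).toIdeal := by
      rw [hmem, map_sub, hc', sub_eq_zero]
      rw [GradedRing.proj_apply, GradedRing.proj_apply]
      exact (DirectSum.decompose_of_mem_same 𝒜 (DirectSum.decompose 𝒜 x 0).2).symm
    have h4 : algebraMap k A c ∈ J := by
      have := J.sub_mem hxJ (hJ hmem2)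
      rwa [sub_sub_cancel] at this
    have h5 := J.mul_mem_left (algebraMap k A c⁻¹) h4
    rwa [← map_mul, inv_mul_cancel₀ hc0, map_one] at h5


section Example

open MvPolynomial

variable (k : Type u) [Field k]

attribute [local instance] MvPolynomial.gradedAlgebra

/-- The defining relations: with `T = X 0`, `x = X 1`, `g = X 2`, `h = X 3` they are
`T x, T h, T g - x h, g ^ 2, g h, h ^ 2, x ^ 3`. -/
noncomputable def rels : Set (MvPolynomial (Fin 4) k) :=
  {X 0 * X 1, X 0 * X 3, X 0 * X 2 - X 1 * X 3, X 2 * X 2, X 2 * X 3, X 3 * X 3, X 1 ^ 3}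

/-- The ideal generated by the relations. -/
noncomputable def relIdeal : Ideal (MvPolynomial (Fin 4) k) := Ideal.span (rels k)

/-- The algebra `A = k[T, x, g, h] / (T x, T h, T g - x h, g ^ 2, g h, h ^ 2, x ^ 3)`. -/
abbrev Alg : Type u := MvPolynomial (Fin 4) k ⧸ relIdeal k

theorem relIdeal_homogeneous : (relIdeal k).IsHomogeneous (homogeneousSubmodule (Fin 4) k) := by
  apply Ideal.homogeneous_span
  intro p hp
  have h2 : ∀ i j : Fin 4, (X i * X j : MvPolynomial (Fin 4) k).IsHomogeneous 2 := fun i j =>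
    (isHomogeneous_X k i).mul (isHomogeneous_X k j)
  simp only [rels, Set.mem_insert_iff, Set.mem_singleton_iff] at hp
  rcases hp with rfl | rfl | rfl | rfl | rfl | rfl | rfl
  · exact ⟨2, h2 0 1⟩
  · exact ⟨2, h2 0 3⟩
  · exact ⟨2, (h2 0 2).sub (h2 1 3)⟩
  · exact ⟨2, h2 2 2⟩
  · exact ⟨2, h2 2 3⟩
  · exact ⟨2, h2 3 3⟩
  · refine ⟨3, ?_⟩
    have := isHomogeneous_X_pow (R := k) (1 : Fin 4) 3
    exact this

/-- The grading of `Alg k` by degree. -/
noncomputable def gr : ℕ → Submodule k (Alg k) := quotGrading (homogeneousSubmodule (Fin 4) k) (relIdeal k)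

noncomputable instance : GradedAlgebra (gr k) := gradedAlgebra _ (relIdeal_homogeneous k)

/-- The class of the `i`-th variable. -/
noncomputable def v (i : Fin 4) : Alg k := Ideal.Quotient.mk _ (X i)

theorem rel_zero {p : MvPolynomial (Fin 4) k} (hp : p ∈ rels k) :
    Ideal.Quotient.mk (relIdeal k) p = 0 :=
  Ideal.Quotient.eq_zero_iff_mem.mpr (Ideal.subset_span hp)

theorem r01 : v k 0 * v k 1 = 0 := by
  have := rel_zero k (p := X 0 * X 1) (by simp [rels])
  rwa [map_mul] at this

theorem r03 : v k 0 * v k 3 = 0 := by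
  have := rel_zero k (p := X 0 * X 3) (by simp [rels])
  rwa [map_mul] at this

theorem r02 : v k 0 * v k 2 = v k 1 * v k 3 := by
  have := rel_zero k (p := X 0 * X 2 - X 1 * X 3) (by simp [rels])
  rw [map_sub, map_mul, map_mul, sub_eq_zero] at this
  exact this

theorem r22 : v k 2 * v k 2 = 0 := by
  have := rel_zero k (p := X 2 * X 2) (by simp [rels])
  rwa [map_mul] at this

theorem r23 : v k 2 * v k 3 = 0 := by
  have := rel_zero k (p := X 2 * X 3) (by simp [rels])
  rwa [map_mul] at this

theorem r33 : v k 3 * v k 3 = 0 := by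
  have := rel_zero k (p := X 3 * X 3) (by simp [rels])
  rwa [map_mul] at this

theorem r111 : v k 1 ^ 3 = 0 := by
  have := rel_zero k (p := X 1 ^ 3) (by simp [rels])
  rwa [map_pow] at this

/-- A ring homomorphism out of `Alg k`. -/
noncomputable def liftHom {B : Type v} [CommRing B] [Algebra k B] (b : Fin 4 → B)
    (h01 : b 0 * b 1 = 0) (h03 : b 0 * b 3 = 0) (h02 : b 0 * b 2 = b 1 * b 3)
    (h22 : b 2 * b 2 = 0) (h23 : b 2 * b 3 = 0) (h33 : b 3 * b 3 = 0) (h111 : b 1 ^ 3 = 0) :
    Alg k →ₐ[k] B :=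
  Ideal.Quotient.liftₐ (relIdeal k) (aeval b) (by
    intro a ha
    have : relIdeal k ≤ RingHom.ker (aeval (R := k) b) := by
      rw [relIdeal, Ideal.span_le]
      intro p hp
      simp only [rels, Set.mem_insert_iff, Set.mem_singleton_iff] at hp
      rcases hp with rfl | rfl | rfl | rfl | rfl | rfl | rfl <;>
        simp [RingHom.mem_ker, h01, h03, h02, h22, h23, h33, h111]
    exact this ha)

theorem liftHom_v {B : Type v} [CommRing B] [Algebra k B] (b : Fin 4 → B)
    (h01 : b 0 * b 1 = 0) (h03 : b 0 * b 3 = 0) (h02 : b 0 * b 2 = b 1 * b 3)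
    (h22 : b 2 * b 2 = 0) (h23 : b 2 * b 3 = 0) (h33 : b 3 * b 3 = 0) (h111 : b 1 ^ 3 = 0)
    (i : Fin 4) : liftHom k b h01 h03 h02 h22 h23 h33 h111 (v k i) = b i := by
  simp [liftHom, v]

theorem liftHom_mk {B : Type v} [CommRing B] [Algebra k B] (b : Fin 4 → B)
    (h01 : b 0 * b 1 = 0) (h03 : b 0 * b 3 = 0) (h02 : b 0 * b 2 = b 1 * b 3)
    (h22 : b 2 * b 2 = 0) (h23 : b 2 * b 3 = 0) (h33 : b 3 * b 3 = 0) (h111 : b 1 ^ 3 = 0)
    (p : MvPolynomial (Fin 4) k) :
    liftHom k b h01 h03 h02 h22 h23 h33 h111 (Ideal.Quotient.mk _ p) = aeval b p := by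
  simp [liftHom]

/-- The projection to `k[T]` killing `x, g, h`. -/
noncomputable def toPoly : Alg k →ₐ[k] Polynomial k :=
  liftHom k ![Polynomial.X, 0, 0, 0] (by simp) (by simp) (by simp) (by simp) (by simp) (by simp)
    (by simp)

/-- The ring `k[ε] / (ε ^ 3)`. -/
abbrev R3 : Type u := AdjoinRoot (Polynomial.X ^ 3 : Polynomial k)

theorem root_pow_three : (AdjoinRoot.root (Polynomial.X ^ 3 : Polynomial k)) ^ 3 = 0 := by
  have := AdjoinRoot.eval₂_root (Polynomial.X ^ 3 : Polynomial k)
  simpa using this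

theorem root_sq_ne : (AdjoinRoot.root (Polynomial.X ^ 3 : Polynomial k)) ^ 2 ≠ 0 := by
  intro h
  have h1 : AdjoinRoot.mk (Polynomial.X ^ 3 : Polynomial k) (Polynomial.X ^ 2) = 0 := by
    rw [map_pow, AdjoinRoot.mk_X]
    exact h
  rw [AdjoinRoot.mk_eq_zero, Polynomial.X_pow_dvd_iff] at h1
  have := h1 2 (by norm_num)
  simp at this

/-- The element `ε` of `k[ε, δ] / (ε ^ 3, δ ^ 2)`. -/
noncomputable def eps : DualNumber (R3 k) :=
  TrivSqZeroExt.inlHom (R3 k) (R3 k) (AdjoinRoot.root (Polynomial.X ^ 3 : Polynomial k))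

/-- The element `δ` of `k[ε, δ] / (ε ^ 3, δ ^ 2)`. -/
noncomputable def del : DualNumber (R3 k) := TrivSqZeroExt.inr 1

theorem eps_pow : eps k ^ 3 = 0 := by
  rw [eps, ← map_pow, root_pow_three, map_zero]

theorem del_sq : del k * del k = 0 := by
  rw [del, TrivSqZeroExt.inr_mul_inr]

theorem eps_sq_del : eps k ^ 2 * del k ≠ 0 := by
  intro h
  have := congrArg TrivSqZeroExt.snd h
  rw [eps, del, ← map_pow] at this
  have h2 : TrivSqZeroExt.inlHom (R3 k) (R3 k)
      ((AdjoinRoot.root (Polynomial.X ^ 3 : Polynomial k)) ^ 2) * TrivSqZeroExt.inr 1 =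
      TrivSqZeroExt.inr ((AdjoinRoot.root (Polynomial.X ^ 3 : Polynomial k)) ^ 2) := by
    have := TrivSqZeroExt.inl_mul_inr (R := R3 k) (M := R3 k)
      ((AdjoinRoot.root (Polynomial.X ^ 3 : Polynomial k)) ^ 2) 1
    rw [smul_eq_mul, mul_one] at this
    exact this
  rw [h2] at this
  exact root_sq_ne k this

/-- The homomorphism `T ↦ -ε ^ 2`, `x ↦ ε`, `g ↦ δ`, `h ↦ -ε δ`. -/
noncomputable def toDual : Alg k →ₐ[k] DualNumber (R3 k) :=
  liftHom k ![-eps k ^ 2, eps k, del k, -(eps k * del k)]
    (by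
      have := eps_pow k
      simp only [Matrix.cons_val_zero, Matrix.cons_val_one]
      linear_combination -this)
    (by
      have := eps_pow k
      simp only [Matrix.cons_val_zero, Matrix.cons_val]
      linear_combination del k * this)
    (by
      simp only [Matrix.cons_val_zero, Matrix.cons_val_one, Matrix.cons_val]
      ring)
    (by
      have := del_sq k
      simp only [Matrix.cons_val]
      linear_combination this)
    (by
      have := del_sq k
      simp only [Matrix.cons_val]
      linear_combination -eps k * this)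
    (by
      have := del_sq k
      simp only [Matrix.cons_val]
      linear_combination eps k ^ 2 * this)
    (by
      have := eps_pow k
      simpa using this)

end Example

section Proof

open MvPolynomial

variable (k : Type u) [Field k]

attribute [local instance] MvPolynomial.gradedAlgebra

instance : Nontrivial (Alg k) := (toPoly k).toRingHom.domain_nontrivial

theorem toPoly_coeff (p : MvPolynomial (Fin 4) k) (d : ℕ) :
    (toPoly k (Ideal.Quotient.mk _ p)).coeff d = p.coeff (Finsupp.single 0 d) := by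
  rw [toPoly, liftHom_mk]
  induction p using MvPolynomial.induction_on' with
  | monomial e c =>
    rw [aeval_monomial, Finsupp.prod_fintype _ _ (by simp), Fin.prod_univ_four, coeff_monomial]
    by_cases h : e 1 = 0 ∧ e 2 = 0 ∧ e 3 = 0
    · obtain ⟨h1, h2, h3⟩ := h
      have he : e = Finsupp.single 0 (e 0) := by
        ext i
        fin_cases i <;> simp [h1, h2, h3]
      by_cases h0 : e 0 = d
      · rw [if_pos (by rw [he, h0])]
        simp [h1, h2, h3, h0, Polynomial.coeff_X_pow]
      · rw [if_neg]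
        · have h0' : d ≠ e 0 := fun h => h0 h.symm
          simp [h1, h2, h3, Polynomial.coeff_X_pow, h0']
        · intro h
          apply h0
          rw [h]
          simp
    · rw [if_neg]
      · have : ¬ (e 1 = 0 ∧ e 2 = 0 ∧ e 3 = 0) := h
        rcases not_and_or.mp h with h1 | h1
        · simp [h1]
        · rcases not_and_or.mp h1 with h2 | h2
          · simp [h2]
          · simp [h2]
      · intro he
        apply h
        rw [he]
        simp
  | add p q hp hq => rw [map_add, Polynomial.coeff_add, hp, hq, coeff_add]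

theorem dec_mk (p : MvPolynomial (Fin 4) k) (i : ℕ) :
    (DirectSum.decompose (gr k) (Ideal.Quotient.mk _ p) i : Alg k) =
      Ideal.Quotient.mk _ (homogeneousComponent i p) := by
  have h := decompose_mk (homogeneousSubmodule (Fin 4) k) (relIdeal_homogeneous k) p i
  have h2 : (DirectSum.decompose (homogeneousSubmodule (Fin 4) k) p i : MvPolynomial (Fin 4) k) =
      homogeneousComponent i p := MvPolynomial.decomposition.decompose'_apply p i
  rw [h2] at h
  exact h

theorem isStandardGraded : IsStandardGraded (gr k) where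
  injective := (algebraMap k (Alg k)).injective
  zero_eq := by
    ext a
    constructor
    · rintro ⟨p, hp, rfl⟩
      have h1 : homogeneousComponent 0 p = p := homogeneousComponent_eq_self hp
      rw [homogeneousComponent_zero] at h1
      refine ⟨coeff 0 p, ?_⟩
      rw [← h1]
      simp
    · rintro ⟨c, rfl⟩
      exact ⟨C c, isHomogeneous_C _ c, rfl⟩
  gen := by
    classical
    refine ⟨Finset.univ.image (v k), ?_, ?_⟩
    · intro a ha
      obtain ⟨i, -, rfl⟩ := Finset.mem_image.mp ha
      exact ⟨X i, isHomogeneous_X k i, rfl⟩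
    · rw [Finset.coe_image, Finset.coe_univ, Set.image_univ]
      have h1 : Set.range (v k) = (Ideal.Quotient.mkₐ k (relIdeal k)) '' Set.range X := by
        rw [← Set.range_comp]
        rfl
      rw [h1, ← AlgHom.map_adjoin, MvPolynomial.adjoin_range_X, Algebra.map_top,
        AlgHom.range_eq_top]
      exact Ideal.Quotient.mkₐ_surjective k _

/-- The ideal `A_+`. -/
noncomputable def Pl : Ideal (Alg k) := (HomogeneousIdeal.irrelevant (gr k)).toIdeal

theorem mem_Pl_iff (p : MvPolynomial (Fin 4) k) :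
    Ideal.Quotient.mk _ p ∈ Pl k ↔ coeff 0 p = 0 := by
  have h1 : Ideal.Quotient.mk (relIdeal k) p ∈ Pl k ↔
      GradedRing.proj (gr k) 0 (Ideal.Quotient.mk _ p) = 0 :=
    HomogeneousIdeal.mem_irrelevant_iff _ _
  rw [h1, GradedRing.proj_apply, dec_mk, homogeneousComponent_zero]
  constructor
  · intro h
    have h2 : algebraMap k (Alg k) (coeff 0 p) = algebraMap k (Alg k) 0 := by
      rw [map_zero]
      exact h
    exact (algebraMap k (Alg k)).injective h2
  · intro h
    rw [h, map_zero, map_zero]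

theorem Pl_eq : Pl k = Ideal.span {v k 0, v k 1, v k 2, v k 3} := by
  apply le_antisymm
  · intro a ha
    obtain ⟨p, rfl⟩ := Ideal.Quotient.mk_surjective a
    rw [mem_Pl_iff] at ha
    have h1 : p ∈ Ideal.span (X '' (Set.univ : Set (Fin 4)) : Set (MvPolynomial (Fin 4) k)) := by
      rw [MvPolynomial.mem_ideal_span_X_image]
      intro m hm
      by_contra hne
      push Not at hne
      have : m = 0 := by
        ext i
        exact hne i (Set.mem_univ i)
      rw [this, mem_support_iff] at hm
      exact hm ha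
    have h2 : Ideal.Quotient.mk (relIdeal k) p ∈
        (Ideal.span (X '' (Set.univ : Set (Fin 4)) : Set (MvPolynomial (Fin 4) k))).map
          (Ideal.Quotient.mk (relIdeal k)) := Ideal.mem_map_of_mem _ h1
    rw [Ideal.map_span] at h2
    refine Ideal.span_mono ?_ h2
    rintro _ ⟨_, ⟨i, -, rfl⟩, rfl⟩
    change v k i ∈ _
    fin_cases i <;> simp
  · rw [Ideal.span_le]
    intro a ha
    simp only [Set.mem_insert_iff, Set.mem_singleton_iff] at ha
    have h : ∀ i : Fin 4, v k i ∈ Pl k := by
      intro i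
      rw [v, mem_Pl_iff]
      simp
    rcases ha with rfl | rfl | rfl | rfl
    · exact h 0
    · exact h 1
    · exact h 2
    · exact h 3

theorem span_mul_le {R : Type v} [CommRing R] {s t r : Set R}
    (h : ∀ a ∈ s, ∀ b ∈ t, a * b ∈ Ideal.span r) : Ideal.span s * Ideal.span t ≤ Ideal.span r := by
  rw [Ideal.span_mul_span', Ideal.span_le]
  rintro _ ⟨a, ha, b, hb, rfl⟩
  exact h a ha b hb

theorem mem_of_eq_zero {R : Type v} [CommRing R] {s : Set R} {a : R} (h : a = 0) :
    a ∈ Ideal.span s := by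
  rw [h]; exact zero_mem _

theorem mem_of_eq {R : Type v} [CommRing R] {s : Set R} {a b : R} (hb : b ∈ s) (h : a = b) :
    a ∈ Ideal.span s := by
  rw [h]; exact Ideal.subset_span hb

theorem Pl_sq : Pl k ^ 2 ≤ Ideal.span {v k 0 ^ 2, v k 1 ^ 2, v k 1 * v k 2, v k 1 * v k 3} := by
  rw [pow_two, Pl_eq]
  apply span_mul_le
  intro a ha b hb
  simp only [Set.mem_insert_iff, Set.mem_singleton_iff] at ha hb
  rcases ha with rfl | rfl | rfl | rfl <;> rcases hb with rfl | rfl | rfl | rfl
  · exact mem_of_eq (b := v k 0 ^ 2) (by simp) (by ring)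
  · exact mem_of_eq_zero (r01 k)
  · exact mem_of_eq (b := v k 1 * v k 3) (by simp) (r02 k)
  · exact mem_of_eq_zero (r03 k)
  · exact mem_of_eq_zero (by linear_combination r01 k)
  · exact mem_of_eq (b := v k 1 ^ 2) (by simp) (by ring)
  · exact mem_of_eq (b := v k 1 * v k 2) (by simp) (by ring)
  · exact mem_of_eq (b := v k 1 * v k 3) (by simp) (by ring)
  · exact mem_of_eq (b := v k 1 * v k 3) (by simp) (by linear_combination r02 k)
  · exact mem_of_eq (b := v k 1 * v k 2) (by simp) (by ring)
  · exact mem_of_eq_zero (r22 k)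
  · exact mem_of_eq_zero (r23 k)
  · exact mem_of_eq_zero (by linear_combination r03 k)
  · exact mem_of_eq (b := v k 1 * v k 3) (by simp) (by ring)
  · exact mem_of_eq_zero (by linear_combination r23 k)
  · exact mem_of_eq_zero (r33 k)

theorem Pl_cube : Pl k ^ 3 ≤ Ideal.span {v k 0 ^ 3, v k 1 ^ 2 * v k 2} := by
  have h1 : Pl k ^ 3 ≤ Pl k * Ideal.span {v k 0 ^ 2, v k 1 ^ 2, v k 1 * v k 2, v k 1 * v k 3} := by
    rw [pow_succ']
    exact Ideal.mul_mono_right (Pl_sq k)
  refine h1.trans ?_
  rw [Pl_eq]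
  apply span_mul_le
  intro a ha b hb
  simp only [Set.mem_insert_iff, Set.mem_singleton_iff] at ha hb
  rcases ha with rfl | rfl | rfl | rfl <;> rcases hb with rfl | rfl | rfl | rfl
  · exact mem_of_eq (b := v k 0 ^ 3) (by simp) (by ring)
  · exact mem_of_eq_zero (by linear_combination v k 1 * r01 k)
  · exact mem_of_eq_zero (by linear_combination v k 2 * r01 k)
  · exact mem_of_eq_zero (by linear_combination v k 3 * r01 k)
  · exact mem_of_eq_zero (by linear_combination v k 0 * r01 k)
  · exact mem_of_eq_zero (by linear_combination r111 k)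
  · exact mem_of_eq (b := v k 1 ^ 2 * v k 2) (by simp) (by ring)
  · exact mem_of_eq_zero (by linear_combination -v k 1 * r02 k + v k 2 * r01 k)
  · exact mem_of_eq_zero (by linear_combination v k 0 * r02 k + v k 3 * r01 k)
  · exact mem_of_eq (b := v k 1 ^ 2 * v k 2) (by simp) (by ring)
  · exact mem_of_eq_zero (by linear_combination v k 1 * r22 k)
  · exact mem_of_eq_zero (by linear_combination v k 1 * r23 k)
  · exact mem_of_eq_zero (by linear_combination v k 0 * r03 k)
  · exact mem_of_eq_zero (by linear_combination -v k 1 * r02 k + v k 2 * r01 k)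
  · exact mem_of_eq_zero (by linear_combination v k 1 * r23 k)
  · exact mem_of_eq_zero (by linear_combination v k 1 * r33 k)

theorem Pl_four : Pl k ^ 4 ≤ Ideal.span {v k 0 ^ 4} := by
  have h1 : Pl k ^ 4 ≤ Pl k * Ideal.span {v k 0 ^ 3, v k 1 ^ 2 * v k 2} := by
    rw [pow_succ']
    exact Ideal.mul_mono_right (Pl_cube k)
  refine h1.trans ?_
  rw [Pl_eq]
  apply span_mul_le
  intro a ha b hb
  simp only [Set.mem_insert_iff, Set.mem_singleton_iff] at ha hb
  rcases ha with rfl | rfl | rfl | rfl <;> rcases hb with rfl | rfl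
  · exact mem_of_eq (b := v k 0 ^ 4) (by simp) (by ring)
  · exact mem_of_eq_zero (by linear_combination v k 1 * v k 2 * r01 k)
  · exact mem_of_eq_zero (by linear_combination v k 0 ^ 2 * r01 k)
  · exact mem_of_eq_zero (by linear_combination v k 2 * r111 k)
  · exact mem_of_eq_zero (by linear_combination v k 0 ^ 2 * r02 k + v k 0 * v k 3 * r01 k)
  · exact mem_of_eq_zero (by linear_combination v k 1 ^ 2 * r22 k)
  · exact mem_of_eq_zero (by linear_combination v k 0 ^ 2 * r03 k)
  · exact mem_of_eq_zero (by linear_combination v k 1 ^ 2 * r23 k)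

theorem v_mem (i : Fin 4) : v k i ∈ Pl k := by
  rw [v, mem_Pl_iff]
  simp

/-- The nonhomogeneous reduction `(T + x ^ 2) + A_+ ^ 4`. -/
noncomputable def Jn : Ideal (Alg k) := Ideal.span {v k 0 + v k 1 ^ 2} ⊔ Pl k ^ 4

theorem Jn_isReduction : IsReduction (Jn k) (Pl k) := by
  have hle : Jn k ≤ Pl k := by
    apply sup_le
    · rw [Ideal.span_singleton_le_iff_mem]
      exact (Pl k).add_mem (v_mem k 0) (Ideal.pow_mem_of_mem _ (v_mem k 1) 2 (by norm_num))
    · exact Ideal.pow_le_self (by norm_num)
  refine ⟨hle, 3, le_antisymm ?_ ?_⟩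
  · calc Jn k * Pl k ^ 3 ≤ Pl k * Pl k ^ 3 := Ideal.mul_mono_left hle
      _ = Pl k ^ (3 + 1) := by rw [pow_succ' (Pl k) 3]
  · refine (Pl_four k).trans ?_
    rw [Ideal.span_singleton_le_iff_mem]
    have h1 : v k 0 ^ 4 = (v k 0 + v k 1 ^ 2) * v k 0 ^ 3 := by
      linear_combination -(v k 1 * v k 0 ^ 2) * r01 k
    rw [h1]
    exact Ideal.mul_mem_mul (Ideal.mem_sup_left (Ideal.mem_span_singleton_self _))
      (Ideal.pow_mem_pow (v_mem k 0) 3)

theorem toDual_Jn {a : Alg k} (ha : a ∈ Jn k) : toDual k a = 0 := by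
  have h : Jn k ≤ RingHom.ker (toDual k) := by
    apply sup_le
    · rw [Ideal.span_singleton_le_iff_mem, RingHom.mem_ker, map_add, map_pow, toDual, liftHom_v,
        liftHom_v]
      simp
    · refine (Pl_four k).trans ?_
      rw [Ideal.span_singleton_le_iff_mem, RingHom.mem_ker, map_pow, toDual, liftHom_v]
      have := eps_pow k
      simp only [Matrix.cons_val_zero]
      linear_combination (eps k ^ 5) * this
  exact h ha

theorem F_notMem : v k 1 * v k 3 ∉ Jn k := by
  intro h
  have h1 := toDual_Jn k h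
  rw [map_mul, toDual, liftHom_v, liftHom_v] at h1
  apply eps_sq_del k
  simp only [Matrix.cons_val_one, Matrix.cons_val] at h1
  linear_combination -h1

/-- `x h` lies in every homogeneous reduction of `A_+`. -/
theorem F_mem {J : Ideal (Alg k)} (hJ : J.IsHomogeneous (gr k)) (hr : IsReduction J (Pl k)) :
    v k 1 * v k 3 ∈ J := by
  obtain ⟨hle, n, hn⟩ := hr
  -- some element of `J` has a nonzero `T`-coefficient
  obtain ⟨p, hpJ, hp⟩ : ∃ p : MvPolynomial (Fin 4) k, Ideal.Quotient.mk _ p ∈ J ∧
      coeff (Finsupp.single 0 1) p ≠ 0 := by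
    by_contra hne
    push Not at hne
    have h1 : J.map (toPoly k) ≤ Ideal.span {Polynomial.X ^ 2} := by
      rw [Ideal.map_le_iff_le_comap]
      intro a ha
      obtain ⟨p, rfl⟩ := Ideal.Quotient.mk_surjective a
      rw [Ideal.mem_comap, Ideal.mem_span_singleton, Polynomial.X_pow_dvd_iff]
      intro d hd
      have h0 : coeff 0 p = 0 := (mem_Pl_iff k p).mp (hle ha)
      rw [toPoly_coeff]
      interval_cases d
      · simpa using h0
      · exact hne p ha
    have h2 : (Pl k).map (toPoly k) ≤ Ideal.span {Polynomial.X} := by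
      rw [Pl_eq, Ideal.map_span, Ideal.span_le]
      rintro _ ⟨a, ha, rfl⟩
      simp only [Set.mem_insert_iff, Set.mem_singleton_iff] at ha
      rcases ha with rfl | rfl | rfl | rfl <;>
        simp [toPoly, liftHom_v]
    have h3 : (Pl k ^ (n + 1)).map (toPoly k) ≤ Ideal.span {Polynomial.X ^ (n + 2)} := by
      rw [← hn, Ideal.map_mul, Ideal.map_pow]
      calc J.map (toPoly k) * (Pl k).map (toPoly k) ^ n
          ≤ Ideal.span {Polynomial.X ^ 2} * Ideal.span {Polynomial.X} ^ n :=
            Ideal.mul_mono h1 (Ideal.pow_right_mono h2 n)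
        _ = Ideal.span {Polynomial.X ^ (n + 2)} := by
            rw [Ideal.span_singleton_pow, Ideal.span_singleton_mul_span_singleton, ← pow_add,
              add_comm]
    have h4 : toPoly k (v k 0 ^ (n + 1)) ∈ Ideal.span {(Polynomial.X : Polynomial k) ^ (n + 2)} :=
      h3 (Ideal.mem_map_of_mem _ (Ideal.pow_mem_pow (v_mem k 0) (n + 1)))
    rw [map_pow, toPoly, liftHom_v, Ideal.mem_span_singleton, Polynomial.X_pow_dvd_iff] at h4
    have h5 := h4 (n + 1) (by omega)
    simp at h5
  -- its component of degree one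
  have h1 : Ideal.Quotient.mk (relIdeal k) (homogeneousComponent 1 p) ∈ J := by
    have := hJ 1 hpJ
    rwa [dec_mk] at this
  have h2 : homogeneousComponent 1 p ∈ homogeneousSubmodule (Fin 4) k 1 :=
    homogeneousComponent_mem ..
  rw [homogeneousSubmodule_one_eq_span_X, Submodule.mem_span_range_iff_exists_fun] at h2
  obtain ⟨c, hc⟩ := h2
  have h3 : coeff (Finsupp.single 0 1) (homogeneousComponent 1 p) ≠ 0 := by
    rw [coeff_homogeneousComponent, if_pos (by simp)]
    exact hp
  rw [← hc, Fin.sum_univ_four] at h3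
  have hc0 : c 0 ≠ 0 := by
    simpa [coeff_X, Finsupp.single_left_inj] using h3
  rw [← hc, Fin.sum_univ_four] at h1
  have hl : algebraMap k (Alg k) (c 0) * v k 0 + algebraMap k (Alg k) (c 1) * v k 1 +
      algebraMap k (Alg k) (c 2) * v k 2 + algebraMap k (Alg k) (c 3) * v k 3 ∈ J := by
    convert h1 using 1
    simp only [map_add, MvPolynomial.smul_eq_C_mul, map_mul]
    rfl
  by_cases h1c : c 1 = 0
  · have h4 := J.mul_mem_right (v k 2) hl
    have h5 := J.mul_mem_left (algebraMap k (Alg k) (c 0)⁻¹) h4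
    have h6 : algebraMap k (Alg k) (c 0)⁻¹ * algebraMap k (Alg k) (c 0) = 1 := by
      rw [← map_mul, inv_mul_cancel₀ hc0, map_one]
    convert h5 using 1
    rw [h1c, map_zero]
    have e2 := r02 k
    have e22 := r22 k
    have e23 := r23 k
    linear_combination (-(v k 1 * v k 3)) * h6 -
      algebraMap k (Alg k) (c 0)⁻¹ * algebraMap k (Alg k) (c 0) * e2 -
      algebraMap k (Alg k) (c 0)⁻¹ * algebraMap k (Alg k) (c 2) * e22 -
      algebraMap k (Alg k) (c 0)⁻¹ * algebraMap k (Alg k) (c 3) * e23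
  · have h4 := J.mul_mem_right (v k 3) hl
    have h5 := J.mul_mem_left (algebraMap k (Alg k) (c 1)⁻¹) h4
    have h6 : algebraMap k (Alg k) (c 1)⁻¹ * algebraMap k (Alg k) (c 1) = 1 := by
      rw [← map_mul, inv_mul_cancel₀ h1c, map_one]
    convert h5 using 1
    have e03 := r03 k
    have e23 := r23 k
    have e33 := r33 k
    linear_combination (-(v k 1 * v k 3)) * h6 -
      algebraMap k (Alg k) (c 1)⁻¹ * algebraMap k (Alg k) (c 0) * e03 -
      algebraMap k (Alg k) (c 1)⁻¹ * algebraMap k (Alg k) (c 2) * e23 -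
      algebraMap k (Alg k) (c 1)⁻¹ * algebraMap k (Alg k) (c 3) * e33

end Proof

/-- **If only homogeneous reductions of `A_+` are used, the answer to Q1 is negative**: over every
field `k` there is a standard graded `k`-algebra `A` such that, for the localization `R` of `A` at
`A_+` with maximal ideal `m`, the core of `m` differs from the extension of the intersection of the
homogeneous reductions of `A_+`. -/
theorem result (k : Type u) [Field k] :
    ∃ (A : Type u) (_ : CommRing A) (_ : Algebra k A) (𝒜 : ℕ → Submodule k A)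
      (_ : GradedAlgebra 𝒜) (_ : (HomogeneousIdeal.irrelevant 𝒜).toIdeal.IsPrime),
      IsStandardGraded 𝒜 ∧ ¬ CoreFormula 𝒜 := by
  have hmax : (HomogeneousIdeal.irrelevant (gr k)).toIdeal.IsMaximal :=
    irrelevant_isMaximal (gr k) (isStandardGraded k)
  refine ⟨Alg k, inferInstance, inferInstance, gr k, inferInstance, inferInstance,
    isStandardGraded k, ?_⟩
  unfold CoreFormula
  intro heq
  have hF : v k 1 * v k 3 ∈ gradedCore (gr k) (HomogeneousIdeal.irrelevant (gr k)).toIdeal := by
    rw [gradedCore, Submodule.mem_sInf]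
    rintro J ⟨hJ, hr⟩
    exact F_mem k hJ hr
  have h1 := Ideal.mem_map_of_mem (algebraMap (Alg k)
    (Localization.AtPrime (HomogeneousIdeal.irrelevant (gr k)).toIdeal)) hF
  rw [← heq] at h1
  have h2 := core_le (map_isReduction (HomogeneousIdeal.irrelevant (gr k)).toIdeal
    (Jn_isReduction k))
  have h3 : v k 1 * v k 3 ∈ Jn k :=
    mem_of_map_mem (HomogeneousIdeal.irrelevant (gr k)).toIdeal (N := 4) (I := Jn k)
      le_sup_right (h2 h1)
  exact F_notMem k h3

end Pool.Agent.Results.MP_429122_al.GradedCore
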