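import Mathlib

set_option autoImplicit false

namespace Pool.Agent.Results.MP_429122_al.GradedCoreFails

open MvPolynomial

/-- `J` is a reduction of the ideal `I`: `J ≤ I` and `J * I ^ n = I ^ (n + 1)` for some `n ≥ 0`. -/
def IsReduction {S : Type} [CommRing S] (J I : Ideal S) : Prop :=
  J ≤ I ∧ ∃ n : ℕ, J * I ^ n = I ^ (n + 1)

/-- The core of `I`: the intersection of all reductions of `I`. -/
def core {S : Type} [CommRing S] (I : Ideal S) : Ideal S :=
  sInf {J : Ideal S | IsReduction J I}

/-- The graded core of `I`: the intersection of all homogeneous reductions of `I`. -/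
def gradedCore {k A : Type} [Field k] [CommRing A] [Algebra k A]
    (𝒜 : ℕ → Submodule k A) [GradedAlgebra 𝒜] (I : Ideal A) : Ideal A :=
  sInf {J : Ideal A | IsReduction J I ∧ J.IsHomogeneous 𝒜}

/-- `A = ⨁ 𝒜 i` is a standard graded `k`-algebra. -/
structure IsStandardGraded {k A : Type} [Field k] [CommRing A] [Algebra k A]
    (𝒜 : ℕ → Submodule k A) [GradedAlgebra 𝒜] : Prop where
  injective : Function.Injective (algebraMap k A)
  zero_eq : 𝒜 0 = LinearMap.range (Algebra.linearMap k A)
  gen : ∃ s : Finset A, (∀ a ∈ s, a ∈ 𝒜 1) ∧ Algebra.adjoin k (s : Set A) = ⊤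

/-- The ideal `A_+`. -/
def Aplus {k A : Type} [Field k] [CommRing A] [Algebra k A]
    (𝒜 : ℕ → Submodule k A) [GradedAlgebra 𝒜] : Ideal A :=
  (HomogeneousIdeal.irrelevant 𝒜).toIdeal

/-- The formula `core m = G R`, where `R` is the localization of `A` at `A_+`, `m` is its maximal
ideal and `G` is the graded core of `A_+`. -/
def GradedCoreFormula {k A : Type} [Field k] [CommRing A] [Algebra k A]
    (𝒜 : ℕ → Submodule k A) [GradedAlgebra 𝒜] : Prop :=
  ∀ _ : (Aplus 𝒜).IsPrime,
    core (IsLocalRing.maximalIdeal (Localization.AtPrime (Aplus 𝒜))) =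
      (gradedCore 𝒜 (Aplus 𝒜)).map (algebraMap A (Localization.AtPrime (Aplus 𝒜)))

theorem gen_pow_le {A : Type} [CommRing A] (M F X' : Ideal A) (hM : M ≤ F ⊔ X') (hF : F ≤ M)
    (hX : X' ≤ M) (j : ℕ) : M ^ (j + 1) ≤ F * M ^ j ⊔ X' ^ (j + 1) := by
  induction j with
  | zero => simpa using hM
  | succ j ih =>
    have h0 : M ^ (j + 1 + 1) = M * M ^ (j + 1) := pow_succ' _ _
    rw [h0]
    refine (Ideal.mul_mono hM ih).trans ?_
    rw [Ideal.sup_mul, Ideal.mul_sup, Ideal.mul_sup]
    refine sup_le (sup_le ?_ ?_) (sup_le ?_ ?_)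
    · refine le_sup_of_le_left (Ideal.mul_mono_right ?_)
      rw [pow_succ']
      exact Ideal.mul_mono_left hF
    · exact le_sup_of_le_left (Ideal.mul_mono_right (Ideal.pow_right_mono hX _))
    · refine le_sup_of_le_left ?_
      rw [mul_left_comm, pow_succ']
      exact Ideal.mul_mono_right (Ideal.mul_mono_left hX)
    · refine le_sup_of_le_right ?_
      rw [← pow_succ']

theorem gen_reduction {A : Type} [CommRing A] (x y : A) (h : x ^ 5 = 0) :
    IsReduction (Ideal.span ({y + x ^ 2} : Set A)) (Ideal.span ({x, y} : Set A)) := by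
  have hM : Ideal.span ({x, y} : Set A) ≤ Ideal.span ({y + x ^ 2} : Set A) ⊔
      Ideal.span ({x} : Set A) := by
    rw [Ideal.span_le]
    intro a ha
    simp only [Set.mem_insert_iff, Set.mem_singleton_iff] at ha
    rcases ha with rfl | rfl
    · exact Ideal.mem_sup_right (Ideal.mem_span_singleton_self _)
    · have h1 : (a + x ^ 2) + (-x) * x ∈ Ideal.span ({a + x ^ 2} : Set A) ⊔
          Ideal.span ({x} : Set A) :=
        Ideal.add_mem _ (Ideal.mem_sup_left (Ideal.mem_span_singleton_self _))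
          (Ideal.mem_sup_right (Ideal.mul_mem_left _ _ (Ideal.mem_span_singleton_self _)))
      have h2 : (a + x ^ 2) + (-x) * x = a := by ring
      rw [h2] at h1
      exact h1
  have hfM : Ideal.span ({y + x ^ 2} : Set A) ≤ Ideal.span ({x, y} : Set A) := by
    rw [Ideal.span_singleton_le_iff_mem]
    have hx : x ∈ Ideal.span ({x, y} : Set A) := Ideal.subset_span (by simp)
    have hy : y ∈ Ideal.span ({x, y} : Set A) := Ideal.subset_span (by simp)
    have hx2 : x ^ 2 ∈ Ideal.span ({x, y} : Set A) := by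
      rw [pow_two]
      exact Ideal.mul_mem_left _ x hx
    exact Ideal.add_mem _ hy hx2
  have hxM : Ideal.span ({x} : Set A) ≤ Ideal.span ({x, y} : Set A) := by
    rw [Ideal.span_singleton_le_iff_mem]
    exact Ideal.subset_span (by simp)
  refine ⟨hfM, 4, le_antisymm ?_ ?_⟩
  · have e : Ideal.span ({x, y} : Set A) ^ (4 + 1) =
        Ideal.span ({x, y} : Set A) * Ideal.span ({x, y} : Set A) ^ 4 := pow_succ' _ _
    rw [e]
    exact Ideal.mul_mono_left hfM
  · have h1 := gen_pow_le _ _ _ hM hfM hxM 4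
    rw [Ideal.span_singleton_pow, show (4 + 1 : ℕ) = 5 from rfl, h] at h1
    simpa using h1

theorem gen_map {A B : Type} [CommRing A] [CommRing B] (f : A →+* B) {J I : Ideal A}
    (h : IsReduction J I) : IsReduction (J.map f) (I.map f) := by
  obtain ⟨g1, n, g2⟩ := h
  refine ⟨Ideal.map_mono g1, n, ?_⟩
  rw [← Ideal.map_pow, ← Ideal.map_mul, g2, Ideal.map_pow]

section quotient

variable (k : Type) [Field k]

/-- The polynomial ring in two variables. -/
abbrev S := MvPolynomial (Fin 2) k

/-- The ideal `(x y ^ 2, x ^ 5)`. -/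
noncomputable def I0 : Ideal (S k) := Ideal.span {X 0 * X 1 ^ 2, X 0 ^ 5}

/-- The algebra `k[x, y] / (x y ^ 2, x ^ 5)`. -/
abbrev A0 := S k ⧸ I0 k

/-- Its grading by degree. -/
noncomputable def gr (n : ℕ) : Submodule k (A0 k) :=
  (homogeneousSubmodule (Fin 2) k n).map (Ideal.Quotient.mkₐ k (I0 k)).toLinearMap

theorem mem_gr {n : ℕ} {a : A0 k} : a ∈ gr k n ↔ ∃ p : S k, p.IsHomogeneous n ∧
    Ideal.Quotient.mk (I0 k) p = a := by
  simp only [gr, Submodule.mem_map, mem_homogeneousSubmodule]
  rfl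

/-- The map `p ↦ p(xT, yT)`. -/
noncomputable def φ0 : S k →+* Polynomial (A0 k) :=
  eval₂Hom (Polynomial.C.comp ((Ideal.Quotient.mk (I0 k)).comp C))
    (fun i => Polynomial.C (Ideal.Quotient.mk (I0 k) (X i)) * Polynomial.X)

theorem φ0_monomial (d : Fin 2 →₀ ℕ) (c : k) :
    φ0 k (monomial d c) = Polynomial.monomial d.degree (Ideal.Quotient.mk (I0 k) (monomial d c)) := by
  have h1 : φ0 k (monomial d c) = φ0 k (C c) * (φ0 k (X 0) ^ d 0 * φ0 k (X 1) ^ d 1) := by
    rw [monomial_eq, Finsupp.prod_fintype _ _ (by simp), Fin.prod_univ_two, map_mul, map_mul,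
      map_pow, map_pow]
  have h2 : φ0 k (C c) = Polynomial.C (Ideal.Quotient.mk (I0 k) (C c)) := by
    simp [φ0]
  have h3 : ∀ i, φ0 k (X i) = Polynomial.C (Ideal.Quotient.mk (I0 k) (X i)) * Polynomial.X := by
    intro i
    simp [φ0]
  have h4 : monomial d c = C c * (X 0 ^ d 0 * X 1 ^ d 1) := by
    rw [monomial_eq, Finsupp.prod_fintype _ _ (by simp), Fin.prod_univ_two]
  have h5 : d.degree = d 0 + d 1 := by
    rw [Finsupp.degree_eq_sum, Fin.sum_univ_two]
  rw [h1, h2, h3, h3, h4, h5, ← Polynomial.C_mul_X_pow_eq_monomial, pow_add]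
  simp only [map_mul, map_pow]
  ring

theorem φ0_hom {n : ℕ} {p : S k} (hp : p.IsHomogeneous n) :
    φ0 k p = Polynomial.monomial n (Ideal.Quotient.mk (I0 k) p) := by
  conv_lhs => rw [p.as_sum, map_sum]
  conv_rhs => rw [p.as_sum, map_sum, map_sum]
  refine Finset.sum_congr rfl fun d hd => ?_
  rw [φ0_monomial]
  have : d.degree = n := by
    by_contra hne
    exact (mem_support_iff.mp hd) (hp.coeff_eq_zero hne)
  rw [this]

theorem I0_le_ker : I0 k ≤ RingHom.ker (φ0 k) := by
  refine Ideal.span_le.mpr ?_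
  intro p hp
  simp only [Set.mem_insert_iff, Set.mem_singleton_iff] at hp
  rw [SetLike.mem_coe, RingHom.mem_ker]
  have h1 : (X 0 * X 1 ^ 2 : S k).IsHomogeneous 3 :=
    (isHomogeneous_X k 0).mul ((isHomogeneous_X k 1).pow 2)
  have h2 : (X 0 ^ 5 : S k).IsHomogeneous 5 := by
    simpa using (isHomogeneous_X k 0).pow 5
  rcases hp with rfl | rfl
  · rw [φ0_hom k h1]
    have : Ideal.Quotient.mk (I0 k) (X 0 * X 1 ^ 2) = 0 :=
      Ideal.Quotient.eq_zero_iff_mem.mpr (Ideal.subset_span (by simp))
    rw [this, map_zero]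
  · rw [φ0_hom k h2]
    have : Ideal.Quotient.mk (I0 k) (X 0 ^ 5) = 0 :=
      Ideal.Quotient.eq_zero_iff_mem.mpr (Ideal.subset_span (by simp))
    rw [this, map_zero]

/-- The map `a ↦ a(xT, yT)` on the quotient. -/
noncomputable def ψ0 : A0 k →+* Polynomial (A0 k) :=
  Ideal.Quotient.lift (I0 k) (φ0 k) (fun _ ha => (RingHom.mem_ker).mp (I0_le_ker k ha))

theorem ψ0_gr {n : ℕ} {a : A0 k} (ha : a ∈ gr k n) : ψ0 k a = Polynomial.monomial n a := by
  obtain ⟨p, hp, rfl⟩ := (mem_gr k).mp ha
  rw [ψ0, Ideal.Quotient.lift_mk, φ0_hom k hp]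

instance : SetLike.GradedMonoid (gr k) where
  one_mem := (mem_gr k).mpr ⟨1, isHomogeneous_one _ _, map_one _⟩
  mul_mem := by
    intro i j a b ha hb
    obtain ⟨p, hp, rfl⟩ := (mem_gr k).mp ha
    obtain ⟨q, hq, rfl⟩ := (mem_gr k).mp hb
    exact (mem_gr k).mpr ⟨p * q, hp.mul hq, map_mul _ _ _⟩

theorem isInternal : DirectSum.IsInternal (gr k) := by
  classical
  constructor
  · rw [injective_iff_map_eq_zero]
    intro x hx
    have h1 : ψ0 k (DirectSum.coeAddMonoidHom (gr k) x) =
        ∑ i ∈ x.support, Polynomial.monomial i (x i : A0 k) := by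
      rw [DirectSum.coeAddMonoidHom_eq_dfinsuppSum, DFinsupp.sum, map_sum]
      exact Finset.sum_congr rfl fun i _ => ψ0_gr k (x i).2
    rw [hx, map_zero] at h1
    ext i
    by_cases hi : i ∈ x.support
    · have h2 := congrArg (Polynomial.coeff · i) h1
      simp only [Polynomial.coeff_zero, Polynomial.finsetSum_coeff, Polynomial.coeff_monomial] at h2
      rw [Finset.sum_ite_eq' x.support i, if_pos hi] at h2
      rw [← h2]
      simp
    · rw [DFinsupp.notMem_support_iff] at hi
      rw [hi]
      simp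
  · intro a
    obtain ⟨p, rfl⟩ := Ideal.Quotient.mk_surjective a
    refine ⟨∑ i ∈ Finset.range (p.totalDegree + 1), DirectSum.of (fun i => gr k i) i
      ⟨Ideal.Quotient.mk (I0 k) (homogeneousComponent i p),
        (mem_gr k).mpr ⟨_, homogeneousComponent_isHomogeneous i p, rfl⟩⟩, ?_⟩
    rw [map_sum]
    simp only [DirectSum.coeAddMonoidHom_of]
    rw [← map_sum, sum_homogeneousComponent]

noncomputable instance : GradedAlgebra (gr k) :=
  { (inferInstance : SetLike.GradedMonoid (gr k)), (isInternal k).chooseDecomposition with }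

/-- The class of `x`. -/
noncomputable def xx : A0 k := Ideal.Quotient.mk (I0 k) (X 0)

/-- The class of `y`. -/
noncomputable def yy : A0 k := Ideal.Quotient.mk (I0 k) (X 1)

theorem rel1 : xx k * yy k ^ 2 = 0 := by
  rw [xx, yy, ← map_pow, ← map_mul, Ideal.Quotient.eq_zero_iff_mem]
  exact Ideal.subset_span (by simp)

theorem rel2 : xx k ^ 5 = 0 := by
  rw [xx, ← map_pow, Ideal.Quotient.eq_zero_iff_mem]
  exact Ideal.subset_span (by simp)

theorem I0_le_ker_const : I0 k ≤ RingHom.ker (constantCoeff : S k →+* k) := by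
  refine Ideal.span_le.mpr ?_
  intro p hp
  simp only [Set.mem_insert_iff, Set.mem_singleton_iff] at hp
  rcases hp with rfl | rfl <;> simp [RingHom.mem_ker]

/-- The augmentation. -/
noncomputable def ε : A0 k →+* k :=
  Ideal.Quotient.lift (I0 k) constantCoeff
    (fun _ ha => (RingHom.mem_ker).mp (I0_le_ker_const k ha))

theorem ε_mk (p : S k) : ε k (Ideal.Quotient.mk (I0 k) p) = constantCoeff p := rfl

theorem ε_algebraMap (c : k) : ε k (algebraMap k (A0 k) c) = c := by
  have : algebraMap k (A0 k) c = Ideal.Quotient.mk (I0 k) (C c) := rfl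
  rw [this, ε_mk, constantCoeff_C]

theorem algebraMap_inj : Function.Injective (algebraMap k (A0 k)) := by
  intro a b h
  rw [← ε_algebraMap k a, ← ε_algebraMap k b, h]

theorem gr_zero : gr k 0 = LinearMap.range (Algebra.linearMap k (A0 k)) := by
  ext a
  rw [mem_gr, LinearMap.mem_range]
  constructor
  · rintro ⟨p, hp, rfl⟩
    refine ⟨coeff 0 p, ?_⟩
    have h1 : p.totalDegree = 0 := Nat.le_zero.mp hp.totalDegree_le
    rw [totalDegree_eq_zero_iff_eq_C] at h1
    conv_rhs => rw [h1]
    rfl
  · rintro ⟨c, rfl⟩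
    exact ⟨C c, isHomogeneous_C _ _, rfl⟩

theorem standard : IsStandardGraded (gr k) where
  injective := algebraMap_inj k
  zero_eq := gr_zero k
  gen := by
    classical
    refine ⟨{xx k, yy k}, ?_, ?_⟩
    · intro a ha
      simp only [Finset.mem_insert, Finset.mem_singleton] at ha
      rcases ha with rfl | rfl
      · exact (mem_gr k).mpr ⟨X 0, isHomogeneous_X _ _, rfl⟩
      · exact (mem_gr k).mpr ⟨X 1, isHomogeneous_X _ _, rfl⟩
    · rw [eq_top_iff]
      rintro a -
      obtain ⟨p, rfl⟩ := Ideal.Quotient.mk_surjective a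
      induction p using MvPolynomial.induction_on with
      | C c => exact Subalgebra.algebraMap_mem _ c
      | add p q hp hq => rw [map_add]; exact Subalgebra.add_mem _ hp hq
      | mul_X p i hp =>
        rw [map_mul]
        refine Subalgebra.mul_mem _ hp (Algebra.subset_adjoin ?_)
        fin_cases i
        · simp [xx]
        · simp [yy]

theorem mem_irrelevant_iff (a : A0 k) :
    a ∈ (HomogeneousIdeal.irrelevant (gr k)).toIdeal ↔ ε k a = 0 := by
  classical
  have h0 : ∀ a : A0 k, ε k a = ε k (GradedRing.proj (gr k) 0 a) := by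
    intro a
    have h1 : ∀ i, i ≠ 0 → ∀ b ∈ gr k i, ε k b = 0 := by
      intro i hi b hb
      obtain ⟨p, hp, rfl⟩ := (mem_gr k).mp hb
      rw [ε_mk, constantCoeff_eq]
      apply hp.coeff_eq_zero
      simpa using (Ne.symm hi)
    conv_lhs => rw [← DirectSum.sum_support_decompose (gr k) a, map_sum]
    by_cases h : 0 ∈ (DirectSum.decompose (gr k) a).support
    · rw [Finset.sum_eq_single 0]
      · rfl
      · intro i _ hi
        exact h1 i hi _ (DirectSum.decompose (gr k) a i).2
      · intro h'; exact absurd h h'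
    · rw [Finset.sum_eq_zero]
      · rw [DFinsupp.notMem_support_iff] at h
        rw [GradedRing.proj_apply, h]
        simp
      · intro i hi
        have : i ≠ 0 := by rintro rfl; exact h hi
        exact h1 i this _ (DirectSum.decompose (gr k) a i).2
  have h2 : a ∈ (HomogeneousIdeal.irrelevant (gr k)).toIdeal ↔ GradedRing.proj (gr k) 0 a = 0 :=
    HomogeneousIdeal.mem_irrelevant_iff (gr k) a
  rw [h2, h0 a]
  have h3 : GradedRing.proj (gr k) 0 a ∈ gr k 0 := by
    rw [GradedRing.proj_apply]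
    exact (DirectSum.decompose (gr k) a 0).2
  rw [gr_zero, LinearMap.mem_range] at h3
  obtain ⟨c, hc⟩ := h3
  rw [← hc]
  have h4 : ε k (Algebra.linearMap k (A0 k) c) = c := ε_algebraMap k c
  rw [h4]
  constructor
  · intro h
    exact algebraMap_inj k (by rw [map_zero]; exact h)
  · rintro rfl
    exact map_zero _

/-- The ideal generated by the two variables. -/
noncomputable def M0 : Ideal (A0 k) := Ideal.span {xx k, yy k}

theorem irrelevant_eq : (HomogeneousIdeal.irrelevant (gr k)).toIdeal = M0 k := by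
  apply le_antisymm
  · intro a ha
    rw [mem_irrelevant_iff] at ha
    obtain ⟨p, rfl⟩ := Ideal.Quotient.mk_surjective a
    rw [ε_mk] at ha
    have h1 : p ∈ Ideal.span (X '' (Set.univ : Set (Fin 2))) := by
      rw [mem_ideal_span_X_image]
      intro m hm
      by_contra hcon
      push Not at hcon
      have : m = 0 := by
        ext i; simpa using hcon i (Set.mem_univ _)
      subst this
      exact (mem_support_iff.mp hm) ha
    have h2 : Ideal.span (X '' (Set.univ : Set (Fin 2))) ≤
        (M0 k).comap (Ideal.Quotient.mk (I0 k)) := by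
      rw [Ideal.span_le]
      rintro _ ⟨i, _, rfl⟩
      fin_cases i
      · exact Ideal.subset_span (by simp [xx])
      · exact Ideal.subset_span (by simp [yy])
    exact h2 h1
  · rw [M0, Ideal.span_le]
    intro a ha
    simp only [Set.mem_insert_iff, Set.mem_singleton_iff] at ha
    rw [SetLike.mem_coe, mem_irrelevant_iff]
    rcases ha with rfl | rfl <;> simp [xx, yy, ε_mk]

theorem irrelevant_isPrime : (HomogeneousIdeal.irrelevant (gr k)).toIdeal.IsPrime := by
  have h : (HomogeneousIdeal.irrelevant (gr k)).toIdeal = RingHom.ker (ε k) := by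
    ext a
    rw [mem_irrelevant_iff, RingHom.mem_ker]
  rw [h]
  exact RingHom.ker_isPrime _

theorem I0_le_ker_y : I0 k ≤ RingHom.ker (eval₂Hom (Polynomial.C : k →+* Polynomial k)
    (fun i => if i = 0 then 0 else Polynomial.X)) := by
  refine Ideal.span_le.mpr ?_
  intro p hp
  simp only [Set.mem_insert_iff, Set.mem_singleton_iff] at hp
  rcases hp with rfl | rfl <;> simp [RingHom.mem_ker]

/-- The map sending `x` to `0` and `y` to `Y`. -/
noncomputable def π0 : A0 k →+* Polynomial k :=
  Ideal.Quotient.lift (I0 k) (eval₂Hom (Polynomial.C : k →+* Polynomial k)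
    (fun i => if i = 0 then 0 else Polynomial.X))
    (fun _ ha => (RingHom.mem_ker).mp (I0_le_ker_y k ha))

theorem π0_mk (p : S k) : π0 k (Ideal.Quotient.mk (I0 k) p) =
    eval₂Hom (Polynomial.C : k →+* Polynomial k) (fun i => if i = 0 then 0 else Polynomial.X) p :=
  rfl

theorem π0_xx : π0 k (xx k) = 0 := by simp [xx, π0_mk]

theorem π0_yy : π0 k (yy k) = Polynomial.X := by simp [yy, π0_mk]

theorem π0_gr {n : ℕ} {a : A0 k} (ha : a ∈ gr k n) : Polynomial.X ^ n ∣ π0 k a := by
  obtain ⟨p, hp, rfl⟩ := (mem_gr k).mp ha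
  rw [π0_mk, p.as_sum, map_sum]
  refine Finset.dvd_sum fun d hd => ?_
  have hdeg : d 0 + d 1 = n := by
    have : d.degree = n := by
      by_contra hne
      exact (mem_support_iff.mp hd) (hp.coeff_eq_zero hne)
    rw [Finsupp.degree_eq_sum, Fin.sum_univ_two] at this
    exact this
  rw [coe_eval₂Hom, eval₂_monomial, Finsupp.prod_fintype _ _ (by simp), Fin.prod_univ_two]
  by_cases h0 : d 0 = 0
  · have : d 1 = n := by omega
    simp [h0, this]
  · simp [h0]

theorem π0_M0_pow (n : ℕ) {a : A0 k} (ha : a ∈ M0 k ^ n) : Polynomial.X ^ n ∣ π0 k a := by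
  have h1 : (M0 k).map (π0 k) ≤ Ideal.span {Polynomial.X} := by
    rw [M0, Ideal.map_span, Ideal.span_le]
    rintro _ ⟨b, hb, rfl⟩
    simp only [Set.mem_insert_iff, Set.mem_singleton_iff] at hb
    rcases hb with rfl | rfl
    · rw [π0_xx]; exact Ideal.zero_mem _
    · rw [π0_yy]; exact Ideal.mem_span_singleton_self _
  have h2 : π0 k a ∈ (M0 k ^ n).map (π0 k) := Ideal.mem_map_of_mem _ ha
  rw [Ideal.map_pow] at h2
  have h3 := Ideal.pow_right_mono h1 n h2
  rw [Ideal.span_singleton_pow, Ideal.mem_span_singleton] at h3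
  exact h3

theorem gr_zero_eq_zero {b : A0 k} (hb : b ∈ gr k 0) (h : ε k b = 0) : b = 0 := by
  rw [gr_zero, LinearMap.mem_range] at hb
  obtain ⟨c, rfl⟩ := hb
  have h4 : ε k (Algebra.linearMap k (A0 k) c) = c := ε_algebraMap k c
  rw [h4] at h
  rw [h, map_zero]

/-- Every homogeneous reduction of `A_+` contains `x ^ 2 * y`. -/
theorem mem_reduction {J : Ideal (A0 k)} (hJ : IsReduction J (M0 k))
    (hh : J.IsHomogeneous (gr k)) : xx k ^ 2 * yy k ∈ J := by
  classical
  obtain ⟨hle, n, hn⟩ := hJ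
  -- a linear form in J with non-zero coefficient of y
  obtain ⟨l, hlJ, hlg, hl⟩ : ∃ l ∈ J, l ∈ gr k 1 ∧ π0 k l ≠ 0 := by
    by_contra hcon
    push Not at hcon
    have h1 : ∀ j ∈ J, Polynomial.X ^ 2 ∣ π0 k j := by
      intro j hj
      rw [← DirectSum.sum_support_decompose (gr k) j, map_sum]
      refine Finset.dvd_sum fun i _ => ?_
      have hij : (DirectSum.decompose (gr k) j i : A0 k) ∈ J := hh i hj
      have hig : (DirectSum.decompose (gr k) j i : A0 k) ∈ gr k i :=
        (DirectSum.decompose (gr k) j i).2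
      rcases Nat.lt_or_ge i 2 with hi | hi
      · have hi' : i = 0 ∨ i = 1 := by omega
        rcases hi' with rfl | rfl
        · have h3 := hle hij
          rw [← irrelevant_eq, mem_irrelevant_iff] at h3
          rw [gr_zero_eq_zero k hig h3, map_zero]
          exact dvd_zero _
        · rw [hcon _ hij hig]
          exact dvd_zero _
      · exact (pow_dvd_pow _ hi).trans (π0_gr k hig)
    have h2 : yy k ^ (n + 1) ∈ J * M0 k ^ n := by
      rw [hn]
      exact Ideal.pow_mem_pow (Ideal.subset_span (by simp)) _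
    have h3 : ∀ b ∈ J * M0 k ^ n, Polynomial.X ^ (n + 2) ∣ π0 k b := by
      intro b hb
      refine Submodule.mul_induction_on hb ?_ ?_
      · intro j hj m hm
        rw [map_mul, add_comm, pow_add]
        exact mul_dvd_mul (h1 j hj) (π0_M0_pow k n hm)
      · intro a b ha hb
        rw [map_add]
        exact dvd_add ha hb
    have h4 := h3 _ h2
    rw [map_pow, π0_yy, Polynomial.X_pow_dvd_iff] at h4
    have h5 := h4 (n + 1) (by omega)
    rw [Polynomial.coeff_X_pow, if_pos rfl] at h5
    exact one_ne_zero h5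
  obtain ⟨p, hp, rfl⟩ := (mem_gr k).mp hlg
  obtain ⟨a, b, hab⟩ : ∃ a b : k, p = C a * X 0 + C b * X 1 := by
    refine ⟨coeff (Finsupp.single 0 1) p, coeff (Finsupp.single 1 1) p, ?_⟩
    ext d
    by_cases hd : d.degree = 1
    · have hd2 : d 0 + d 1 = 1 := by
        rw [Finsupp.degree_eq_sum, Fin.sum_univ_two] at hd
        exact hd
      have hd3 : d = Finsupp.single 0 1 ∨ d = Finsupp.single 1 1 := by
        rcases Nat.eq_zero_or_pos (d 0) with h0 | h0
        · right
          ext i
          fin_cases i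
          · simpa using h0
          · have : d 1 = 1 := by omega
            simpa using this
        · left
          ext i
          fin_cases i
          · have : d 0 = 1 := by omega
            simpa using this
          · have : d 1 = 0 := by omega
            simpa using this
      have h01 : (Finsupp.single (0 : Fin 2) 1 : Fin 2 →₀ ℕ) ≠ Finsupp.single 1 1 := by
        intro h
        have := DFunLike.congr_fun h 0
        simp at this
      rcases hd3 with rfl | rfl
      · rw [coeff_add, coeff_C_mul, coeff_C_mul, coeff_X, coeff_X, if_pos rfl, if_neg h01.symm]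
        ring
      · rw [coeff_add, coeff_C_mul, coeff_C_mul, coeff_X, coeff_X, if_pos rfl, if_neg h01]
        ring
    · rw [hp.coeff_eq_zero hd, coeff_add, coeff_C_mul, coeff_C_mul, coeff_X, coeff_X, if_neg,
        if_neg]
      · ring
      · rintro rfl; exact hd (by simp)
      · rintro rfl; exact hd (by simp)
  have hb : b ≠ 0 := by
    rintro rfl
    apply hl
    rw [π0_mk, hab]
    simp
  set α : A0 k := algebraMap k (A0 k) a with hα
  set β : A0 k := algebraMap k (A0 k) b with hβ
  set β' : A0 k := algebraMap k (A0 k) b⁻¹ with hβ'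
  have hββ : β' * β = 1 := by
    rw [hβ, hβ', ← map_mul, inv_mul_cancel₀ hb, map_one]
  have hl2 : Ideal.Quotient.mk (I0 k) p = α * xx k + β * yy k := by
    rw [hab, map_add, map_mul, map_mul]
    rfl
  rw [hl2] at hlJ
  have hx3 : α ^ 2 * xx k ^ 3 ∈ J := by
    have h1 : α ^ 2 * xx k ^ 3 = (α * xx k + β * yy k) * (α * xx k ^ 2 - β * (xx k * yy k)) +
        β ^ 2 * (xx k * yy k ^ 2) := by ring
    rw [h1, rel1, mul_zero, add_zero]
    exact Ideal.mul_mem_right _ _ hlJ
  have hx3' : α * xx k ^ 3 ∈ J := by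
    rcases eq_or_ne a 0 with ha | ha
    · rw [hα, ha, map_zero, zero_mul]
      exact Ideal.zero_mem _
    · have h1 : algebraMap k (A0 k) a⁻¹ * (α ^ 2 * xx k ^ 3) = α * xx k ^ 3 := by
        have h2 : algebraMap k (A0 k) a⁻¹ * α = 1 := by
          rw [hα, ← map_mul, inv_mul_cancel₀ ha, map_one]
        calc algebraMap k (A0 k) a⁻¹ * (α ^ 2 * xx k ^ 3) =
            (algebraMap k (A0 k) a⁻¹ * α) * (α * xx k ^ 3) := by ring
          _ = α * xx k ^ 3 := by rw [h2, one_mul]
      rw [← h1]
      exact Ideal.mul_mem_left _ _ hx3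
  have h2 : xx k ^ 2 * yy k = β' * (xx k ^ 2 * (α * xx k + β * yy k) - α * xx k ^ 3) := by
    calc xx k ^ 2 * yy k = (β' * β) * (xx k ^ 2 * yy k) := by rw [hββ, one_mul]
      _ = β' * (xx k ^ 2 * (α * xx k + β * yy k) - α * xx k ^ 3) := by ring
  rw [h2]
  exact Ideal.mul_mem_left _ _ (Ideal.sub_mem _ (Ideal.mul_mem_left _ _ hlJ) hx3')

/-- The element `y + x ^ 2`. -/
noncomputable def ff : A0 k := yy k + xx k ^ 2

theorem ff_reduction : IsReduction (Ideal.span {ff k}) (M0 k) :=
  gen_reduction (xx k) (yy k) (rel2 k)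

/-- The map sending `x` to `X` and `y` to `-X ^ 2`. -/
noncomputable def θ0 : S k →+* Polynomial k :=
  eval₂Hom (Polynomial.C : k →+* Polynomial k)
    (fun i => if i = 0 then Polynomial.X else - Polynomial.X ^ 2)

theorem θ0_I0 {p : S k} (hp : p ∈ I0 k) : Polynomial.X ^ 5 ∣ θ0 k p := by
  have h1 : I0 k ≤ (Ideal.span {Polynomial.X ^ 5}).comap (θ0 k) := by
    refine Ideal.span_le.mpr ?_
    intro p hp
    simp only [Set.mem_insert_iff, Set.mem_singleton_iff] at hp
    rw [SetLike.mem_coe, Ideal.mem_comap, Ideal.mem_span_singleton]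
    rcases hp with rfl | rfl
    · refine ⟨1, ?_⟩
      simp [θ0]
      ring
    · refine ⟨1, ?_⟩
      simp [θ0]
  exact Ideal.mem_span_singleton.mp (h1 hp)

theorem θ0_coeff_zero (p : S k) : (θ0 k p).coeff 0 = constantCoeff p := by
  have h : (Polynomial.constantCoeff).comp (θ0 k) = (constantCoeff : S k →+* k) := by
    apply MvPolynomial.ringHom_ext
    · intro c; simp [θ0]
    · intro i
      fin_cases i <;> simp [θ0]
  have := RingHom.congr_fun h p
  simpa using this

theorem not_mem {s : A0 k} (hs : ε k s ≠ 0) : s * (xx k ^ 2 * yy k) ∉ Ideal.span {ff k} := by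
  intro h
  rw [Ideal.mem_span_singleton'] at h
  obtain ⟨g, hg⟩ := h
  obtain ⟨p, rfl⟩ := Ideal.Quotient.mk_surjective s
  obtain ⟨q, rfl⟩ := Ideal.Quotient.mk_surjective g
  rw [ε_mk] at hs
  have h1 : q * (X 1 + X 0 ^ 2) - p * (X 0 ^ 2 * X 1) ∈ I0 k := by
    rw [← Ideal.Quotient.eq]
    simp only [map_mul, map_add, map_pow]
    exact hg
  have h2 := θ0_I0 k h1
  have h3 : θ0 k (q * (X 1 + X 0 ^ 2) - p * (X 0 ^ 2 * X 1)) = Polynomial.X ^ 4 * θ0 k p := by
    have e0 : θ0 k (X 0) = Polynomial.X := by simp [θ0]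
    have e1 : θ0 k (X 1) = - Polynomial.X ^ 2 := by simp [θ0]
    rw [map_sub, map_mul, map_mul, map_add, map_pow, map_mul, map_pow, e0, e1]
    ring
  rw [h3, Polynomial.X_pow_dvd_iff] at h2
  have h4 := h2 4 (by norm_num)
  have h5 : (Polynomial.X ^ 4 * θ0 k p).coeff (0 + 4) = (θ0 k p).coeff 0 :=
    Polynomial.coeff_X_pow_mul _ _ _
  rw [zero_add] at h5
  rw [h5, θ0_coeff_zero] at h4
  exact hs h4

end quotient

/-- **The graded reading of the question has a negative answer.** Over every field `k` there is a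
standard graded `k`-algebra `A` such that for the localization `R` of `A` at the ideal `A_+`, with
maximal ideal `m`, the core of `m` differs from the extension to `R` of the graded core of `A_+`,
the intersection of all homogeneous reductions of `A_+`. -/
theorem result (k : Type) [Field k] :
    ∃ (A : Type) (_ : CommRing A) (_ : Algebra k A) (𝒜 : ℕ → Submodule k A)
      (_ : GradedAlgebra 𝒜), IsStandardGraded 𝒜 ∧ ¬ GradedCoreFormula 𝒜 := by
  refine ⟨A0 k, inferInstance, inferInstance, gr k, inferInstance, standard k, fun hform => ?_⟩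
  have hprime : (Aplus (gr k)).IsPrime := irrelevant_isPrime k
  have heq := hform hprime
  have hPM : Aplus (gr k) = M0 k := irrelevant_eq k
  have h1 : xx k ^ 2 * yy k ∈ gradedCore (gr k) (Aplus (gr k)) := by
    rw [gradedCore, Submodule.mem_sInf]
    rintro J ⟨hJ, hh⟩
    rw [hPM] at hJ
    exact mem_reduction k hJ hh
  have h2 : algebraMap (A0 k) (Localization.AtPrime (Aplus (gr k))) (xx k ^ 2 * yy k) ∈
      core (IsLocalRing.maximalIdeal (Localization.AtPrime (Aplus (gr k)))) := by
    rw [heq]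
    exact Ideal.mem_map_of_mem _ h1
  have h3 : IsReduction
      ((Ideal.span {ff k}).map (algebraMap (A0 k) (Localization.AtPrime (Aplus (gr k)))))
      (IsLocalRing.maximalIdeal (Localization.AtPrime (Aplus (gr k)))) := by
    rw [← Localization.AtPrime.map_eq_maximalIdeal]
    refine gen_map _ ?_
    rw [hPM]
    exact ff_reduction k
  have h4 := (Submodule.mem_sInf.mp h2) _ h3
  rw [IsLocalization.algebraMap_mem_map_algebraMap_iff (Aplus (gr k)).primeCompl] at h4
  obtain ⟨s, hs, hsx⟩ := h4
  refine not_mem k ?_ hsx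
  intro h5
  exact hs ((mem_irrelevant_iff k s).mpr h5)

end Pool.Agent.Results.MP_429122_al.GradedCoreFails
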